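import Pool.Agent.Helper98.ZA.Stmts

/-!
Uniquely ergodic models of inverse limits of isometric extensions of iterated extensions by compact
abelian Lie groups (MP_7a8f48_an): definitions and statements of the sheet ZB.
-/

open MeasureTheory Filter Topology Finset
open scoped ComplexConjugate

namespace Pool.Agent.Helper98.ZB

open Pool.Agent.Helper98.TW (SA jo bo cm AM UF BF Sys Lm IA LQ Inc sg Grp)
open Pool.Agent.Helper98.TA (Tr ad Pw)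
open Pool.Agent.Helper98.ZA (pr co Un Pe)
open Pool.Agent.Helper40.TWM (St NK)
open Pool.Agent.Helper40.DZ (SK)
open Pool.Agent.Helper40.JZ (LM)
open Pool.Agent.Helper98.GY (JY JJY)
open Pool.Agent.Helper16.MD (MS)
open Pool.Agent.Helper16.AZ (E Op)
open Pool.Agent.Helper16.BZ (Wk EE)

/-! ### definitions -/

/-- a triangular sequence of unimodular functions -/
structure Tw {Y : Type} [MeasurableSpace Y] (ν : Measure Y) (S : Y → Y) (u : ℕ → Y → ℂ) :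
    Prop where
  meas : ∀ k, Measurable (u k)
  norm : ∀ k y, ‖u k y‖ = 1
  inc : ∀ k, ∃ g : (Fin k → ℂ) → ℂ, Measurable g ∧
    ∀ᵐ y ∂ν, u k (S y) = u k y * g (fun i => u i y)

/-- a vector function which is equivariant for a unitary cocycle of the first `k` functions -/
structure Ev {Y : Type} [MeasurableSpace Y] (ν : Measure Y) (S : Y → Y) (u : ℕ → Y → ℂ)
    (k d : ℕ) (φ : (Fin k → ℂ) → Op d) (e : Y → E d) : Prop where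
  uni : ∀ z, φ z ∈ unitary (Op d)
  ms : StronglyMeasurable φ
  meas : Measurable e
  le : ∀ y, ‖e y‖ ≤ 1
  eqv : ∀ᵐ y ∂ν, e (S y) = φ (pr u k y) (e y)

/-- the functions `u` and the vector functions `e` generate the sigma algebra -/
structure Cl {Y : Type} [MeasurableSpace Y] (ν : Measure Y) (S : Y → Y) (u : ℕ → Y → ℂ)
    (k d : ℕ → ℕ) (φ : ∀ j, (Fin (k j) → ℂ) → Op (d j)) (e : ∀ j, Y → E (d j)) : Prop where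
  tw : Tw ν S u
  ev : ∀ j, Ev ν S u (k j) (d j) (φ j) (e j)
  gen : ∀ s, MeasurableSet s → ∃ t,
    MeasurableSet[(⨆ k, MeasurableSpace.comap (u k) inferInstance) ⊔
      (⨆ j, MeasurableSpace.comap (e j) inferInstance)] t ∧ s =ᵐ[ν] t

/-- continuous functions near `G` have small correlations with the Moebius function -/
def Oe {Y : Type} [TopologicalSpace Y] [MeasurableSpace Y] (ν : Measure Y) (S : Y → Y)
    (G : Y → ℂ) (η : ℝ) : Prop :=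
  ∃ δ : ℝ, 0 < δ ∧ ∀ H : C(Y, ℂ), ∫ y, ‖H y - G y‖ ^ 2 ∂ν ≤ δ → ∀ y : Y, ∀ᶠ N : ℕ in atTop,
    ‖MS (fun n => H (S^[n] y)) N‖ ≤ η * N

/-- `G` is orthogonal to the Moebius function -/
def Or {Y : Type} [TopologicalSpace Y] [MeasurableSpace Y] (ν : Measure Y) (S : Y → Y)
    (G : Y → ℂ) : Prop := ∀ η : ℝ, 0 < η → Oe ν S G η

/-- the section `c` has no discrete part for the operator `b ↦ φ* (b ∘ R)` -/
def Ra {Ω : Type} [MeasurableSpace Ω] (μ : Measure Ω) (R : Ω → Ω) {d : ℕ} (φ : Ω → Op d)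
    (c : Ω → E d) : Prop := MemLp c 2 μ ∧ ∀ g : Ω → E d, MemLp g 2 μ →
  Tendsto (fun H : ℕ => (∑ h ∈ range H, ‖∫ x, (inner ℂ (g x) (Wk R φ h c x) : ℂ) ∂μ‖ ^ 2) / (H : ℝ))
    atTop (𝓝 0)

/-- the section `c` transported by the power `-i` of the operator -/
noncomputable def ci {Ω : Type} (R R' : Ω → Ω) {d : ℕ} (φ : Ω → Op d) (c : Ω → E d) (i : ℕ)
    (w : Ω) : E d := Pool.Agent.Helper16.BZ.co R φ i (R'^[i] w) (c (R'^[i] w))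

/-! ### Block N -/

/-- ZBK: the criterion of Katai with finitely many primes and an explicit constant. -/
def ST_ZBK : Prop := ∀ η : ℝ, 0 < η → η ≤ 1 → ∀ P₀ : ℕ, ∃ P₁ : ℕ,
  ∀ a : ℕ → ℂ, (∀ n, ‖a n‖ ≤ 1) →
  (∀ p q : ℕ, p.Prime → q.Prime → p ≠ q → P₀ ≤ p → P₀ ≤ q → p ≤ P₁ → q ≤ P₁ →
    ∀ᶠ M : ℕ in atTop, ‖∑ n ∈ Icc 1 M, a (p * n) * conj (a (q * n))‖ ≤ η ^ 2 / 4096 * M) →
  ∀ᶠ N : ℕ in atTop, ‖MS a N‖ ≤ η * N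

/-! ### Block O: functions orthogonal to the Moebius function -/

/-- ZOC: they form a closed subspace. -/
def ST_ZOC : Prop := ∀ (Y : Type) [MetricSpace Y] [CompactSpace Y] [MeasurableSpace Y]
  [BorelSpace Y] (ν : Measure Y) [IsProbabilityMeasure ν] (S : Y → Y), Continuous S → Un S ν →
  (∀ G G' : Y → ℂ, G =ᵐ[ν] G' → Or ν S G → Or ν S G') ∧
  (∀ G G' : Y → ℂ, MemLp G 2 ν → MemLp G' 2 ν → Or ν S G → Or ν S G' →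
    Or ν S (fun y => G y + G' y)) ∧
  (∀ (c : ℂ) (G : Y → ℂ), MemLp G 2 ν → Or ν S G → Or ν S (fun y => c * G y)) ∧
  (∀ G : Y → ℂ, MemLp G 2 ν → (∀ ε : ℝ, 0 < ε → ∃ G' : Y → ℂ, MemLp G' 2 ν ∧ Or ν S G' ∧
    ∫ y, ‖G y - G' y‖ ^ 2 ∂ν ≤ ε) → Or ν S G) ∧
  (∀ (G G' : Y → ℂ) (η : ℝ), 0 < η → MemLp G 2 ν → MemLp G' 2 ν → Oe ν S G' (η / 2) →
    ∫ y, ‖G y - G' y‖ ^ 2 ∂ν ≤ (η / 8) ^ 2 → Oe ν S G η) ∧
  ∀ F : C(Y, ℂ), Or ν S F → ∀ y : Y,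
    Tendsto (fun N : ℕ => MS (fun n => F (S^[n] y)) N / (N : ℂ)) atTop (𝓝 0)

/-- ZOK: functions with small correlations. -/
def ST_ZOK : Prop := ∀ (Y : Type) [MetricSpace Y] [CompactSpace Y] [MeasurableSpace Y]
  [BorelSpace Y] (ν : Measure Y) [IsProbabilityMeasure ν] (S : Y → Y), Continuous S → Un S ν →
  ∀ (G : Y → ℂ) (b η : ℝ) (m P₀ : ℕ), Measurable G → (∀ y, ‖G y‖ ≤ b) → 0 < η → 1 ≤ m →
  (∀ p q : ℕ, p.Prime → q.Prime → p ≠ q → P₀ ≤ p → P₀ ≤ q → ∀ κ : Measure (Y × Y),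
    IsProbabilityMeasure κ → Ergodic (Prod.map S^[p * m] S^[q * m]) κ →
    ‖∫ z, G z.1 * conj (G z.2) ∂κ‖ ≤ η ^ 2 / 40000) → Oe ν S G η

/-- ZOP: periodic functions. -/
def ST_ZOP : Prop := ∀ (Y : Type) [MetricSpace Y] [CompactSpace Y] [MeasurableSpace Y]
  [BorelSpace Y] (ν : Measure Y) [IsProbabilityMeasure ν] (S : Y → Y), Continuous S → Un S ν →
  ∀ (m : ℕ) (G : Y → ℂ), 1 ≤ m → MemLp G 2 ν → (∀ᵐ y ∂ν, G (S^[m] y) = G y) → Or ν S G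

/-- ZOE: eigenfunctions. -/
def ST_ZOE : Prop := ∀ (Y : Type) [MetricSpace Y] [CompactSpace Y] [MeasurableSpace Y]
  [BorelSpace Y] (ν : Measure Y) [IsProbabilityMeasure ν] (S : Y → Y), Continuous S → Un S ν →
  ∀ (v : Y → ℂ) (l : ℂ), MemLp v 2 ν → ‖l‖ = 1 → (∀ᵐ y ∂ν, v (S y) = l * v y) → Or ν S v

/-! ### Block S: the operator of a unitary cocycle -/

/-- ZWU: the operator. -/
def ST_ZWU : Prop := ∀ (Ω : Type) [MeasurableSpace Ω] (μ : Measure Ω) [IsProbabilityMeasure μ]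
  (R R' : Ω → Ω) (d : ℕ) (φ : Ω → Op d), Sys μ R R' → StronglyMeasurable φ →
  (∀ x, φ x ∈ unitary (Op d)) → ∃ W : Lp (E d) 2 μ →L[ℂ] Lp (E d) 2 μ,
    W ∈ unitary (Lp (E d) 2 μ →L[ℂ] Lp (E d) 2 μ) ∧
    ∀ (c : Ω → E d) (f : Lp (E d) 2 μ), (∀ᵐ x ∂μ, (f : Ω → E d) x = c x) →
      ∀ k : ℕ, ∀ᵐ x ∂μ, ((W ^ k) f : Ω → E d) x = Wk R φ k c x

/-- ZWS: the discrete part and the random part. -/
def ST_ZWS : Prop := ∀ (Ω : Type) [MeasurableSpace Ω] (μ : Measure Ω) [IsProbabilityMeasure μ]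
  (R R' : Ω → Ω) (d : ℕ) (φ : Ω → Op d), Sys μ R R' → StronglyMeasurable φ →
  (∀ x, φ x ∈ unitary (Op d)) → ∀ (c : Ω → E d) (ε : ℝ), MemLp c 2 μ → 0 < ε →
  ∃ (n : ℕ) (b : Fin n → Ω → E d) (l : Fin n → ℂ) (c₀ : Ω → E d),
    (∀ i, MemLp (b i) 2 μ ∧ ‖l i‖ = 1 ∧ ∀ᵐ x ∂μ, star (φ x) (b i (R x)) = l i • b i x) ∧
    Ra μ R φ c₀ ∧ ∫ x, ‖c x - (∑ i, b i x) - c₀ x‖ ^ 2 ∂μ ≤ ε

/-! ### Block B: correlations on the base -/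

/-- ZRW: the first `k` functions as a tower on `ℂ^k` (ZRL without generation). -/
def ST_ZRW : Prop := ∀ (Y : Type) [MeasurableSpace Y] (ν : Measure Y) [IsProbabilityMeasure ν]
  (S : Y → Y) (u : ℕ → Y → ℂ), MeasurePreserving S ν ν → Tw ν S u → ∀ k : ℕ,
  ∃ R R' : (Fin k → ℂ) → (Fin k → ℂ), Sys (ν.map (pr u k)) R R' ∧
    (∀ᵐ y ∂ν, pr u k (S y) = R (pr u k y)) ∧
    ∃ A : ℕ → SA (Fin k → ℂ), Tr (ν.map (pr u k)) R (fun i z => co i z) A k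

/-- ZMC: ergodic joinings of the powers of a totally ergodic tower (MLB with two sections). -/
def ST_ZMC : Prop := ∀ (Ω : Type) [MeasurableSpace Ω] [StandardBorelSpace Ω] (μ : Measure Ω)
  [IsProbabilityMeasure μ] (S S' : Ω → Ω) (u : ℕ → Ω → ℂ) (A : ℕ → SA Ω) (N d : ℕ)
  (φ : Ω → Op d) (c c' : Ω → E d), St μ S S' → Tr μ S u A N → AEStronglyMeasurable φ μ →
  (∀ x, φ x ∈ unitary (Op d)) → AEStronglyMeasurable c μ → AEStronglyMeasurable c' μ →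
  (∃ B : ℝ, ∀ x, ‖c x‖ ≤ B) → (∃ B : ℝ, ∀ x, ‖c' x‖ ≤ B) → ∀ ε : ℝ, 0 < ε → ∃ P₀ : ℕ,
  ∀ p ≥ P₀, p.Prime → ∀ q ≥ P₀, q.Prime → p ≠ q → ∀ κ : Measure (Ω × Ω), JY S μ p q κ →
  ∀ᶠ H : ℕ in atTop, ‖∑ h ∈ range H, ∑ h' ∈ range H, ∫ z, EE S φ c (p * h) (p * h') z.1 *
    conj (EE S φ c' (q * h) (q * h') z.2) ∂κ‖ ≤
      (√(LM (NK μ S φ c) p) * √(LM (NK μ S φ c') q) + ε) * (H : ℝ) ^ 2

/-- ZLP: the masses for large primes. -/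
def ST_ZLP : Prop := ∀ N : ℕ → ℕ → ℝ, SK N →
  Tendsto (fun H : ℕ => (∑ h ∈ range H, N 0 h) / (H : ℝ)) atTop (𝓝 (LM N 1)) ∧
  ∀ ε : ℝ, 0 < ε → ∃ P₀ : ℕ, ∀ p ≥ P₀, p.Prime → LM N p ≤ LM N 1 + ε

/-- ZLS: the masses of the transported sections. -/
def ST_ZLS : Prop := ∀ (Ω : Type) [MeasurableSpace Ω] [StandardBorelSpace Ω] (μ : Measure Ω)
  [IsProbabilityMeasure μ] (R R' : Ω → Ω) (u : ℕ → Ω → ℂ) (N m : ℕ) (B : Set Ω) (d : ℕ)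
  (φ : Ω → Op d) (c c₀ : Ω → E d), Sys μ R R' → Pe μ R R' u N m B → StronglyMeasurable φ →
  (∀ x, φ x ∈ unitary (Op d)) → StronglyMeasurable c → (∃ b : ℝ, ∀ x, ‖c x‖ ≤ b) →
  Ra μ R φ c₀ → ∀ i < m,
    SK (NK (ProbabilityTheory.cond μ B) R^[m] (Pool.Agent.Helper16.BZ.co R φ m)
      (ci R R' φ c i)) ∧
    LM (NK (ProbabilityTheory.cond μ B) R^[m] (Pool.Agent.Helper16.BZ.co R φ m)
      (ci R R' φ c i)) 1 ≤
      2 * (m : ℝ) ^ 2 * (∫ x, ‖c x‖ ^ 2 ∂μ) * ∫ x, ‖c x - c₀ x‖ ^ 2 ∂μ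

/-- ZTP: transport of the correlations. -/
def ST_ZTP : Prop := ∀ (Ω : Type) [MeasurableSpace Ω] (μ : Measure Ω)
  [IsProbabilityMeasure μ] (R R' : Ω → Ω) (d : ℕ) (φ : Ω → Op d) (c : Ω → E d),
  Sys μ R R' → StronglyMeasurable φ → (∀ x, φ x ∈ unitary (Op d)) → StronglyMeasurable c →
  ∀ κ : Measure (Ω × Ω), IsProbabilityMeasure κ → κ.map Prod.fst ≪ μ → κ.map Prod.snd ≪ μ →
  ∀ m i j h h' l l' : ℕ,
    ∫ z, EE R φ c (m * h) (m * h') z.1 * conj (EE R φ c (m * l) (m * l') z.2) ∂κ =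
    ∫ w, EE R^[m] (Pool.Agent.Helper16.BZ.co R φ m) (ci R R' φ c i) h h' w.1 *
      conj (EE R^[m] (Pool.Agent.Helper16.BZ.co R φ m) (ci R R' φ c j) l l' w.2)
      ∂(κ.map (Prod.map R^[i] R^[j]))

/-- ZCB: correlations for ergodic towers. -/
def ST_ZCB : Prop := ∀ (Ω : Type) [MeasurableSpace Ω] [StandardBorelSpace Ω] (μ : Measure Ω)
  [IsProbabilityMeasure μ] (R R' : Ω → Ω) (u : ℕ → Ω → ℂ) (N m : ℕ) (B : Set Ω) (d : ℕ)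
  (φ : Ω → Op d) (c c₀ : Ω → E d), Sys μ R R' → Ergodic R μ → Pe μ R R' u N m B →
  StronglyMeasurable φ → (∀ x, φ x ∈ unitary (Op d)) → StronglyMeasurable c →
  (∃ b : ℝ, ∀ x, ‖c x‖ ≤ b) → Ra μ R φ c₀ → ∀ ε : ℝ, 0 < ε → ∃ P₀ : ℕ,
  ∀ p ≥ P₀, p.Prime → ∀ q ≥ P₀, q.Prime → p ≠ q → ∀ κ : Measure (Ω × Ω),
  IsProbabilityMeasure κ → Ergodic (Prod.map R^[p * m] R^[q * m]) κ → κ.map Prod.fst ≪ μ →
  κ.map Prod.snd ≪ μ → ∀ᶠ H : ℕ in atTop,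
    ‖∑ h ∈ range H, ∑ h' ∈ range H, ∫ z, EE R φ c (p * m * h) (p * m * h') z.1 *
      conj (EE R φ c (q * m * h) (q * m * h') z.2) ∂κ‖ ≤
      (2 * (m : ℝ) ^ 2 * (∫ x, ‖c x‖ ^ 2 ∂μ) * (∫ x, ‖c x - c₀ x‖ ^ 2 ∂μ) + ε) * (H : ℝ) ^ 2

/-! ### Block Y: the space `Y` -/

/-- ZFC: joinings on the base. -/
def ST_ZFC : Prop := ∀ (Y : Type) [MeasurableSpace Y] (ν : Measure Y) [IsProbabilityMeasure ν]
  (S : Y → Y) (Ω : Type) [MeasurableSpace Ω] (f : Y → Ω) (R : Ω → Ω), Measurable S → Un S ν →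
  Measurable f → Measurable R → (∀ᵐ y ∂ν, f (S y) = R (f y)) → Ergodic R (ν.map f) ∧
  ∀ (P Q : ℕ) (κ : Measure (Y × Y)), 1 ≤ P → 1 ≤ Q → IsProbabilityMeasure κ →
    Ergodic (Prod.map S^[P] S^[Q]) κ → κ.map Prod.fst ≪ ν ∧ κ.map Prod.snd ≪ ν ∧
    Ergodic (Prod.map R^[P] R^[Q]) (κ.map (Prod.map f f)) ∧
    (κ.map (Prod.map f f)).map Prod.fst ≪ ν.map f ∧
    (κ.map (Prod.map f f)).map Prod.snd ≪ ν.map f

/-- ZCS: the inequality of Cauchy and Schwarz. -/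
def ST_ZCS : Prop := ∀ (Y : Type) [MeasurableSpace Y] (ν : Measure Y) [IsProbabilityMeasure ν]
  (S : Y → Y) (u : ℕ → Y → ℂ) (k d : ℕ) (φ : (Fin k → ℂ) → Op d) (e : Y → E d)
  (R : (Fin k → ℂ) → (Fin k → ℂ)) (c : (Fin k → ℂ) → E d), MeasurePreserving S ν ν →
  Tw ν S u → Ev ν S u k d φ e → Measurable R → (∀ᵐ y ∂ν, pr u k (S y) = R (pr u k y)) →
  StronglyMeasurable c → (∃ b : ℝ, ∀ z, ‖c z‖ ≤ b) → ∀ (P Q : ℕ) (κ : Measure (Y × Y)),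
  IsProbabilityMeasure κ → MeasurePreserving (Prod.map S^[P] S^[Q]) κ κ →
  κ.map Prod.fst ≪ ν → κ.map Prod.snd ≪ ν → ∀ H : ℕ,
  ‖∫ z, (inner ℂ (c (pr u k z.1)) (e z.1) : ℂ) *
    conj (inner ℂ (c (pr u k z.2)) (e z.2) : ℂ) ∂κ‖ ^ 2 * (H : ℝ) ^ 2 ≤
  ‖∑ h ∈ range H, ∑ h' ∈ range H, ∫ z, EE R φ c (P * h) (P * h') z.1 *
    conj (EE R φ c (Q * h) (Q * h') z.2) ∂(κ.map (Prod.map (pr u k) (pr u k)))‖

/-- ZRF: random functions. -/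
def ST_ZRF : Prop := ∀ (Y : Type) [MetricSpace Y] [CompactSpace Y] [MeasurableSpace Y]
  [BorelSpace Y] (ν : Measure Y) [IsProbabilityMeasure ν] (S : Y → Y) (u : ℕ → Y → ℂ) (k d : ℕ)
  (φ : (Fin k → ℂ) → Op d) (e : Y → E d) (R R' : (Fin k → ℂ) → (Fin k → ℂ))
  (A : ℕ → SA (Fin k → ℂ)) (c₀ : (Fin k → ℂ) → E d), Continuous S → Un S ν → Tw ν S u →
  Ev ν S u k d φ e → Sys (ν.map (pr u k)) R R' → (∀ᵐ y ∂ν, pr u k (S y) = R (pr u k y)) →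
  Tr (ν.map (pr u k)) R (fun i z => co i z) A k → Ra (ν.map (pr u k)) R φ c₀ →
  Or ν S (fun y => (inner ℂ (c₀ (pr u k y)) (e y) : ℂ))

/-- ZDB: density of algebras of functions. -/
def ST_ZDB : Prop := ∀ (Y : Type) [MeasurableSpace Y] (ν : Measure Y) [IsProbabilityMeasure ν]
  (𝒜 : Set (Y → ℂ)), (∀ f ∈ 𝒜, BF f) → (∀ c : ℂ, (fun _ => c) ∈ 𝒜) →
  (∀ f ∈ 𝒜, ∀ g ∈ 𝒜, (fun y => f y + g y) ∈ 𝒜) → (∀ f ∈ 𝒜, ∀ g ∈ 𝒜, (fun y => f y * g y) ∈ 𝒜) →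
  (∀ f ∈ 𝒜, (fun y => conj (f y)) ∈ 𝒜) →
  (∀ s, MeasurableSet s → ∃ t, MeasurableSet[⨆ f ∈ 𝒜, MeasurableSpace.comap f inferInstance] t ∧
    s =ᵐ[ν] t) →
  ∀ G : Y → ℂ, MemLp G 2 ν → ∀ ε : ℝ, 0 < ε → ∃ F ∈ 𝒜, ∫ y, ‖G y - F y‖ ^ 2 ∂ν ≤ ε

/-- `F` is a coefficient of an equivariant vector function -/
def Co {Y : Type} [MeasurableSpace Y] (ν : Measure Y) (S : Y → Y) (u : ℕ → Y → ℂ)
    (F : Y → ℂ) : Prop := ∃ (k d : ℕ) (φ : (Fin k → ℂ) → Op d) (e : Y → E d)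
  (c : (Fin k → ℂ) → E d), Ev ν S u k d φ e ∧ StronglyMeasurable c ∧
  (∃ b : ℝ, ∀ z, ‖c z‖ ≤ b) ∧ F = fun y => (inner ℂ (c (pr u k y)) (e y) : ℂ)

/-- ZDA: the algebra of the coefficients. -/
def ST_ZDA : Prop := ∀ (Y : Type) [MeasurableSpace Y] (ν : Measure Y) [IsProbabilityMeasure ν]
  (S : Y → Y) (u : ℕ → Y → ℂ), Tw ν S u →
  (∀ F, Co ν S u F → BF F) ∧ (∀ c : ℂ, Co ν S u fun _ => c) ∧ (∀ k, Co ν S u (u k)) ∧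
  (∀ (k d : ℕ) (φ : (Fin k → ℂ) → Op d) (e : Y → E d), Ev ν S u k d φ e →
    ∀ i, Co ν S u fun y => e y i) ∧
  (∀ F F', Co ν S u F → Co ν S u F' → Co ν S u fun y => F y + F' y) ∧
  (∀ F F', Co ν S u F → Co ν S u F' → Co ν S u fun y => F y * F' y) ∧
  ∀ F, Co ν S u F → Co ν S u fun y => conj (F y)

/-- ZBM: the theorem. -/
def ST_ZBM : Prop := ∀ (Y : Type) [MetricSpace Y] [CompactSpace Y] [MeasurableSpace Y]
  [BorelSpace Y] (ν : Measure Y) [IsProbabilityMeasure ν] (S : Y → Y) (u : ℕ → Y → ℂ)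
  (k d : ℕ → ℕ) (φ : ∀ j, (Fin (k j) → ℂ) → Op (d j)) (e : ∀ j, Y → E (d j)),
  Continuous S → Un S ν → Cl ν S u k d φ e → (∀ G : Y → ℂ, MemLp G 2 ν → Or ν S G) ∧
  ∀ (F : C(Y, ℂ)) (y : Y),
    Tendsto (fun N : ℕ => MS (fun n => F (S^[n] y)) N / (N : ℂ)) atTop (𝓝 0)

end Pool.Agent.Helper98.ZB
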