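import Pool.Agent.Helper98.ZB.Stmts

/-!
Sheet ZB (MP_7a8f48_an), row ZCB: correlations for ergodic towers.
-/

open MeasureTheory Filter Topology Finset
open scoped ComplexConjugate

namespace Pool.Agent.Helper98.ZB

open Pool.Agent.Helper98.TW (SA jo bo cm AM UF BF Sys Lm IA LQ Inc sg Grp)
open Pool.Agent.Helper98.TA (Tr ad Pw)
open Pool.Agent.Helper98.ZA (pr co Un Pe)
open Pool.Agent.Helper40.TWM (St NK)
open Pool.Agent.Helper40.DZ (SK)
open Pool.Agent.Helper40.JZ (LM)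
open Pool.Agent.Helper98.GY (JY JJY)
open Pool.Agent.Helper16.AZ (E Op)
open Pool.Agent.Helper16.BZ (Wk EE)

section aux

variable {Ω : Type} {R R' : Ω → Ω} {d : ℕ} {φ : Ω → Op d} {c : Ω → E d}

theorem bco_uni (h : ∀ x, φ x ∈ unitary (Op d)) (n : ℕ) (x : Ω) :
    Pool.Agent.Helper16.BZ.co R φ n x ∈ unitary (Op d) := by
  induction n with
  | zero => exact one_mem _
  | succ n ih => exact mul_mem (h _) ih

theorem bco_sm [MeasurableSpace Ω] (hR : Measurable R) (h : StronglyMeasurable φ) (n : ℕ) :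
    StronglyMeasurable (Pool.Agent.Helper16.BZ.co R φ n) := by
  induction n with
  | zero => exact stronglyMeasurable_const
  | succ n ih => exact (h.comp_measurable (hR.iterate n)).mul ih

theorem ci_sm [MeasurableSpace Ω] (hR : Measurable R) (hR' : Measurable R')
    (h : StronglyMeasurable φ) (hc : StronglyMeasurable c) (i : ℕ) :
    StronglyMeasurable (ci R R' φ c i) := by
  have h1 := (bco_sm hR h i).comp_measurable (hR'.iterate i)
  have h2 := hc.comp_measurable (hR'.iterate i)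
  exact (isBoundedBilinearMap_apply (𝕜 := ℂ) (E := E d) (F := E d)).continuous.comp_stronglyMeasurable
    (h1.prodMk h2)

theorem ci_le (h : ∀ x, φ x ∈ unitary (Op d)) {b : ℝ} (hb : ∀ x, ‖c x‖ ≤ b) (i : ℕ) (w : Ω) :
    ‖ci R R' φ c i w‖ ≤ b := by
  rw [ci, Pool.Agent.Helper16.AZ.unitary_norm (bco_uni h i _)]
  exact hb _

end aux

/-- ZCB: correlations for ergodic towers. -/
theorem st_ZCB (hMJ : Pool.Agent.Helper98.ZA.ST_ZMJ) (hMC : ST_ZMC) (hLP : ST_ZLP)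
    (hLS : ST_ZLS) (hTP : ST_ZTP) : ST_ZCB := by
  intro Ω _ _ μ _ R R' u N m B d φ c c₀ hs he hp hφ hφu hc hcb hr ε hε
  obtain ⟨b, hb⟩ := hcb
  have hB0 : μ B ≠ 0 := by
    intro h
    have := hp.mass
    rw [h, mul_zero] at this
    exact zero_ne_one this
  have hν : IsProbabilityMeasure (ProbabilityTheory.cond μ B) :=
    ProbabilityTheory.cond_isProbabilityMeasure hB0
  obtain ⟨A, hA⟩ := hp.tr
  have hφm : StronglyMeasurable (Pool.Agent.Helper16.BZ.co R φ m) := bco_sm hs.mp.measurable hφ m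
  have hφmu : ∀ x, Pool.Agent.Helper16.BZ.co R φ m x ∈ unitary (Op d) := bco_uni hφu m
  have hci : ∀ i, StronglyMeasurable (ci R R' φ c i) :=
    ci_sm hs.mp.measurable hs.mp'.measurable hφ hc
  have hcib : ∀ i, ∃ b, ∀ x, ‖ci R R' φ c i x‖ ≤ b := fun i => ⟨b, ci_le hφu hb i⟩
  obtain ⟨L, hL⟩ : ∃ L : ℝ, L = 2 * (m : ℝ) ^ 2 * (∫ x, ‖c x‖ ^ 2 ∂μ) *
    ∫ x, ‖c x - c₀ x‖ ^ 2 ∂μ := ⟨_, rfl⟩
  have hL0 : 0 ≤ L := by
    rw [hL]
    have h1 : 0 ≤ ∫ x, ‖c x‖ ^ 2 ∂μ := integral_nonneg fun x => by positivity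
    have h2 : 0 ≤ ∫ x, ‖c x - c₀ x‖ ^ 2 ∂μ := integral_nonneg fun x => by positivity
    positivity
  have h1 : ∀ i : Fin m, ∃ P₀ : ℕ, ∀ p ≥ P₀, p.Prime →
      LM (NK (ProbabilityTheory.cond μ B) R^[m] (Pool.Agent.Helper16.BZ.co R φ m)
        (ci R R' φ c i)) p ≤ L + ε / 2 := by
    intro i
    obtain ⟨h1, h2⟩ := hLS Ω μ R R' u N m B d φ c c₀ hs hp hφ hφu hc ⟨b, hb⟩ hr i i.2
    obtain ⟨P₀, hP₀⟩ := (hLP _ h1).2 (ε / 2) (by positivity)
    refine ⟨P₀, fun p hp1 hpp => (hP₀ p hp1 hpp).trans ?_⟩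
    rw [hL]
    linarith
  have h2 : ∀ i j : Fin m, ∃ P₀ : ℕ, ∀ p ≥ P₀, p.Prime → ∀ q ≥ P₀, q.Prime → p ≠ q →
      ∀ κ : Measure (Ω × Ω), JY R^[m] (ProbabilityTheory.cond μ B) p q κ → ∀ᶠ H : ℕ in atTop,
      ‖∑ h ∈ range H, ∑ h' ∈ range H, ∫ z, EE R^[m] (Pool.Agent.Helper16.BZ.co R φ m)
        (ci R R' φ c i) (p * h) (p * h') z.1 *
        conj (EE R^[m] (Pool.Agent.Helper16.BZ.co R φ m) (ci R R' φ c j) (q * h) (q * h') z.2)
          ∂κ‖ ≤
      (√(LM (NK (ProbabilityTheory.cond μ B) R^[m] (Pool.Agent.Helper16.BZ.co R φ m)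
        (ci R R' φ c i)) p) *
      √(LM (NK (ProbabilityTheory.cond μ B) R^[m] (Pool.Agent.Helper16.BZ.co R φ m)
        (ci R R' φ c j)) q) + ε / 2) * (H : ℝ) ^ 2 := fun i j =>
    hMC Ω (ProbabilityTheory.cond μ B) R^[m] R'^[m] u A N d (Pool.Agent.Helper16.BZ.co R φ m)
      (ci R R' φ c i) (ci R R' φ c j) hp.st hA hφm.aestronglyMeasurable hφmu
      (hci i).aestronglyMeasurable (hci j).aestronglyMeasurable (hcib i) (hcib j) (ε / 2)
      (by positivity)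
  choose P1 hP1 using h1
  choose P2 hP2 using h2
  refine ⟨(∑ i, P1 i) + ∑ i, ∑ j, P2 i j, fun p hp1 hpp q hq1 hqp hpq κ hκ hκe hκ1 hκ2 => ?_⟩
  obtain ⟨i, hi, j, hj, hJ, -⟩ := hMJ Ω μ R R' u N m B hs he hp p q κ hκ hpp.one_lt.le
    hqp.one_lt.le hκe hκ1 hκ2
  have a1 : ∀ i : Fin m, P1 i ≤ ∑ i, P1 i := fun i =>
    Finset.single_le_sum (f := P1) (fun _ _ => Nat.zero_le _) (Finset.mem_univ i)
  have a2 : ∀ i j : Fin m, P2 i j ≤ ∑ i, ∑ j, P2 i j := fun i j =>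
    (Finset.single_le_sum (f := P2 i) (fun _ _ => Nat.zero_le _) (Finset.mem_univ j)).trans
      (Finset.single_le_sum (f := fun i => ∑ j, P2 i j) (fun _ _ => Nat.zero_le _)
        (Finset.mem_univ i))
  have b1 := a1 ⟨i, hi⟩
  have b2 := a1 ⟨j, hj⟩
  have b3 := a2 ⟨i, hi⟩ ⟨j, hj⟩
  have h3 := hP2 ⟨i, hi⟩ ⟨j, hj⟩ p (by omega) hpp q (by omega) hqp hpq _ hJ
  have h4 := hP1 ⟨i, hi⟩ p (by omega) hpp
  have h5 := hP1 ⟨j, hj⟩ q (by omega) hqp
  filter_upwards [h3] with H hH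
  have e : ∀ h h' : ℕ, ∫ z, EE R φ c (p * m * h) (p * m * h') z.1 *
      conj (EE R φ c (q * m * h) (q * m * h') z.2) ∂κ =
      ∫ z, EE R^[m] (Pool.Agent.Helper16.BZ.co R φ m) (ci R R' φ c i) (p * h) (p * h') z.1 *
        conj (EE R^[m] (Pool.Agent.Helper16.BZ.co R φ m) (ci R R' φ c j) (q * h) (q * h') z.2)
        ∂(κ.map (Prod.map R^[i] R^[j])) := by
    intro h h'
    have h6 := hTP Ω μ R R' d φ c hs hφ hφu hc κ hκ hκ1 hκ2 m i j (p * h) (p * h') (q * h)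
      (q * h')
    have c1 : ∀ a b : ℕ, m * (a * b) = a * m * b := fun a b => by ring
    simp only [c1] at h6
    exact h6
  simp only [e]
  refine hH.trans ?_
  rw [← hL]
  refine mul_le_mul_of_nonneg_right ?_ (by positivity)
  have h7 : √(LM (NK (ProbabilityTheory.cond μ B) R^[m] (Pool.Agent.Helper16.BZ.co R φ m)
        (ci R R' φ c i)) p) * √(LM (NK (ProbabilityTheory.cond μ B) R^[m]
          (Pool.Agent.Helper16.BZ.co R φ m) (ci R R' φ c j)) q) ≤ √(L + ε / 2) * √(L + ε / 2) :=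
    mul_le_mul (Real.sqrt_le_sqrt h4) (Real.sqrt_le_sqrt h5) (Real.sqrt_nonneg _)
      (Real.sqrt_nonneg _)
  rw [Real.mul_self_sqrt (by positivity)] at h7
  linarith

end Pool.Agent.Helper98.ZB
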